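import Mathlib
import Pool.Agent.H621.Avg.Final

set_option autoImplicit false

/-!
# The `3x+k` map has on average more than any power of `log K` cycles, `k ≤ K`

The number of the cycles of the `3x+k` map with at most `P` elements, averaged over the `k ≤ K`
prime to `6`, is larger than `exp ((log P)^A)` for every `A`, if `P` is large and `K ≥ 2^(P+4)`. So the
average number of cycles (with at most `log₂ K` elements) is larger than `exp ((log log K)^A)`, and
than every power of `log K`.

Proof. The words `w` of length `2 n` with `n` letters `1` belong to the periodic points `c w / D` of the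
`3x+1` map on the rational numbers, `D = 4^n - 3^n`, and to periodic integers of the `3x+k` map for all
`k` divisible by `D / gcd (c w, D)`. So the average over `k` is at least the average of
`gcd (c w, D)` over the words `w`, up to a factor `100 n^2`. We take for `n` a multiple of `Q^s`, `Q` a
product of `r` large primes. Then `D` is divisible by at least `(s+1)^r - O(1)` different primes (a
primitive prime divisor of `4^d - 3^d` for each large divisor `d` of `Q^s`), and the numerators `c w`
are divisible by each product `g` of these primes with probability at least `1/(2 g)`. This is proved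
with exponential sums modulo `g`: the words are read in pairs of letters, and the effect of the pairs
`01`, `10` is a factor `|1 + e(t/g)|/2`, where `t` changes to `3^o t / 4` modulo `g` from pair to pair,
`o = 0, 1, 2` being the number of the ones in the pair. The logarithm of the distance of `t/g` to the
integers serves as a potential: it decreases on average as long as this distance is small.
-/

namespace Pool.Agent.Results.MP_7f88e4_nt.AverageNumberOfCycles

/-- the `3x+k` map -/
def T (k x : ℤ) : ℤ := if x % 2 = 0 then x / 2 else (3 * x + k) / 2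

/-- `Z` is a cycle of the `3x+k` map: `Z = {x, T x, ..., T^(p-1) x}` with `p ≥ 1` and `T^p x = x` -/
def IsCycle (k : ℤ) (Z : Finset ℤ) : Prop :=
  ∃ (x : ℤ) (p : ℕ), 1 ≤ p ∧ (T k)^[p] x = x ∧ Z = (Finset.range p).image fun i => (T k)^[i] x

/-- the cycles of the `3x+k` map with at most `P` elements -/
def cyclesUpTo (k : ℤ) (P : ℕ) : Set (Finset ℤ) := {Z | IsCycle k Z ∧ Z.card ≤ P}

/-- (0) For every odd `k` and every `P` the `3x+k` map has only finitely many cycles with at most `P`
elements.
(1) For every `A` and all large `P`: for all `K ≥ 2^(P+4)` the numbers of the cycles with at most `P`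
elements of the `3x+k` maps, `1 ≤ k ≤ K`, `k ≡ 1, 5` modulo `6`, have a sum of at least
`K exp ((log P)^A)`.
(2) For every `A` and all large `K` the numbers of the cycles with at most `log₂ K` elements of these
maps have a sum of at least `K exp ((log log K)^A)`. -/
theorem result :
    (∀ k : ℤ, k % 2 = 1 → ∀ P : ℕ, (cyclesUpTo k P).Finite) ∧
    (∀ A : ℝ, ∃ P₀ : ℕ, ∀ P K : ℕ, P₀ ≤ P → 2 ^ (P + 4) ≤ K →
      (K : ℝ) * Real.exp (Real.log P ^ A) ≤
        ∑ k ∈ (Finset.Icc 1 K).filter (fun k => k % 6 = 1 ∨ k % 6 = 5),
          ((cyclesUpTo (k : ℤ) P).ncard : ℝ)) ∧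
    (∀ A : ℝ, ∃ K₀ : ℕ, ∀ K : ℕ, K₀ ≤ K →
      (K : ℝ) * Real.exp (Real.log (Real.log K) ^ A) ≤
        ∑ k ∈ (Finset.Icc 1 K).filter (fun k => k % 6 = 1 ∨ k % 6 = 5),
          ((cyclesUpTo (k : ℤ) (Nat.log 2 K)).ncard : ℝ)) := by
  have hT : T = Pool.Agent.H621.Osc.T := by funext k x; rfl
  have hC : cyclesUpTo = Pool.Agent.H621.Avg.shortCycles := by
    funext k P
    unfold cyclesUpTo Pool.Agent.H621.Avg.shortCycles IsCycle Pool.Agent.H621.Osc.IsCycle
    rw [hT]
  rw [hC]
  refine ⟨fun k hk P => Pool.Agent.H621.Avg.shortCycles_finite k hk P, fun A => ?_, fun A => ?_⟩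
  · obtain ⟨P₀, h⟩ := Pool.Agent.H621.Avg.main A
    refine ⟨P₀, fun P K hP hK => h P K hP ?_⟩
    rw [pow_add] at hK
    omega
  · exact Pool.Agent.H621.Avg.main_log A

end Pool.Agent.Results.MP_7f88e4_nt.AverageNumberOfCycles
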