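import Mathlib
import Pool.Agent.H621.Uni.Number

set_option autoImplicit false

/-!
# Cycles of the `3x+k` maps most of whose elements are near the least one, for all `k`

Let `B < 3^(11/10) = 3.348...`. There are `δ > 0`, `A` and `C` such that for every odd `k` every cycle
of the `3x+k` map of which a proportion `≥ 1 - δ` of the elements lies within a factor `B` of the least
absolute value `m` has `m ≤ C |k|^A`, and at most `C |k|^A` elements. So for all `k` there are
only finitely many such cycles, and their number is at most polynomial in `k`. For `B = 3^β` every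
`A > 1 / (11 - 10 β)` is possible; for `B ≤ 3` this is every `A > 1`, and then the bound
is almost best possible, because there are always cycles of size about `|k|` (`{|k|}`, `{2k, k}`).

Proof. Let the elements be positive and let `n` be such that `2^n` is about `9 m`. If `m` is much bigger
than `n |k|`, the numbers of odd terms among the first `i ≤ n` terms of the orbits which stay in the
window are determined by the position of the starting point, up to a choice between two values at
the times when the rotation by `log 2 / log 3` visits an interval of length `β - 1`. A cycle with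
few elements above the window has many elements whose orbits are above the window at few of these
times. This leaves at most `2^((β - 1 + 5 η) n)` parity words, and the elements of the
window have different words. So the cycle has at most `p = C m^(β - 1 + 5 η)` elements. On the
other hand its linear form `|p log 2 - o log 3|` is at most `p |k| / (2 m)`, and it is at least
`c p^(-9)`, by approximations with the irrationality exponent `9` which use the prime number theorem.
So `m ≤ C |k| p^10`, and `10 (β - 1) < 1`.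
-/

namespace Pool.Agent.Results.MP_7f88e4_nt.ConcentratedCycles

/-- the `3x+k` map -/
def T (k x : ℤ) : ℤ := if x % 2 = 0 then x / 2 else (3 * x + k) / 2

/-- `Z` is a cycle of the `3x+k` map: `Z = {x, T x, ..., T^(p-1) x}` with `p ≥ 1` and `T^p x = x` -/
def IsCycle (k : ℤ) (Z : Finset ℤ) : Prop :=
  ∃ (x : ℤ) (p : ℕ), 1 ≤ p ∧ (T k)^[p] x = x ∧ Z = (Finset.range p).image fun i => (T k)^[i] x

/-- the cycles of the `3x+k` map for which the number of the elements of absolute value greater than
`B` times the least one is at most `δ` times the number of elements -/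
def concentrated (k : ℤ) (B δ : ℝ) : Set (Finset ℤ) :=
  {Z | IsCycle k Z ∧ ∃ m ∈ Z, (∀ z ∈ Z, |m| ≤ |z|) ∧
    ((Z.filter fun z : ℤ => B * |(m : ℝ)| < |(z : ℝ)|).card : ℝ) ≤ δ * Z.card}

/-- For `1 ≤ β < 11/10` and `A > 1 / (11 - 10 β)` there are `δ > 0` and `C` such that for all odd `k`
all cycles of the `3x+k` map of which at most `δ |Z|` elements `z` have `|z| > 3^β m`, `m` the least
absolute value, have `m ≤ C |k|^A` and at most `C |k|^A` elements, and there are at most
`C |k|^A` such cycles. -/
theorem result (β A : ℝ) (hβ1 : 1 ≤ β) (hβ2 : β < 11 / 10) (hA : 1 / (11 - 10 * β) < A) :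
    ∃ δ C : ℝ, 0 < δ ∧ ∀ k : ℤ, k % 2 = 1 →
      (∀ Z ∈ concentrated k (3 ^ β) δ,
        (∃ m ∈ Z, |(m : ℝ)| ≤ C * |(k : ℝ)| ^ A) ∧ (Z.card : ℝ) ≤ C * |(k : ℝ)| ^ A) ∧
      (concentrated k (3 ^ β) δ).Finite ∧
      ((concentrated k (3 ^ β) δ).ncard : ℝ) ≤ C * |(k : ℝ)| ^ A := by
  have hT : T = Pool.Agent.H621.Osc.T := by funext k x; rfl
  have hC : ∀ k Z, IsCycle k Z ↔ Pool.Agent.H621.Osc.IsCycle k Z := by
    intro k Z
    unfold IsCycle Pool.Agent.H621.Osc.IsCycle
    rw [hT]
  obtain ⟨δ, C, hδ, hmain⟩ := Pool.Agent.H621.Uni.final β A hβ1 hβ2 hA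
  have hA0 : 0 < A := lt_trans (one_div_pos.2 (by linarith)) hA
  refine ⟨δ, 2 * max C 0 + 1, hδ, fun k hk => ?_⟩
  have hk1 : (1 : ℝ) ≤ |(k : ℝ)| := by
    have : 1 ≤ |k| := Int.one_le_abs (by omega)
    exact_mod_cast this
  have hP : 1 ≤ |(k : ℝ)| ^ A := Real.one_le_rpow hk1 hA0.le
  have hC0 : 0 ≤ max C 0 := le_max_right _ _
  have hCm : C * |(k : ℝ)| ^ A ≤ max C 0 * |(k : ℝ)| ^ A :=
    mul_le_mul_of_nonneg_right (le_max_left _ _) (by linarith)
  have hCP : max C 0 * |(k : ℝ)| ^ A ≤ (2 * max C 0 + 1) * |(k : ℝ)| ^ A :=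
    mul_le_mul_of_nonneg_right (by linarith) (by linarith)
  have hone : ∀ Z ∈ concentrated k (3 ^ β) δ,
      (∃ m ∈ Z, |(m : ℝ)| ≤ max C 0 * |(k : ℝ)| ^ A) ∧ (Z.card : ℝ) ≤ max C 0 * |(k : ℝ)| ^ A := by
    rintro Z ⟨hZ, m, hm, hmin, hc⟩
    obtain ⟨h1, h2⟩ := hmain k hk Z ((hC k Z).1 hZ) m hm hmin hc
    exact ⟨⟨m, hm, h1.trans hCm⟩, h2.trans hCm⟩
  have hnum := Pool.Agent.H621.Uni.number_le k (concentrated k (3 ^ β) δ)
    (max C 0 * |(k : ℝ)| ^ A) (by positivity) (fun Z hZ => ⟨(hC k Z).1 hZ.1, (hone Z hZ).1⟩)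
  refine ⟨fun Z hZ => ?_, hnum.1, ?_⟩
  · obtain ⟨⟨m, hm, h1⟩, h2⟩ := hone Z hZ
    exact ⟨⟨m, hm, h1.trans hCP⟩, h2.trans hCP⟩
  · refine hnum.2.trans ?_
    nlinarith

end Pool.Agent.Results.MP_7f88e4_nt.ConcentratedCycles
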