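import Mathlib
import Pool.Agent.H621.Near.Final

set_option autoImplicit false

/-!
# The exact order of the number of cycles of the `3x+k` maps near the origin

Let `k` be prime to `6`, `|k| ≥ 2`. Any set of integers of absolute value at most `|k|^(1 + 1/2000)`
whose orbits under the `3x+k` map never meet has at most `C |k| / (log |k|)^(3/2)` elements. So at
most so many cycles, and at most so many grand orbits (classes of merging orbits), have an element in
this interval. There are at most `C |k| / √(log |k|)` periodic integers in `[-B |k|, B |k|]`. Both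
bounds have the right order: for `k = 4^n - 3^n` at least `k / (20 (log k)^(3/2))` cycles have an
element in `[1, k]`, and at least `k / (20 √(log k))` integers of `[1, 99 k]` are periodic.

Proof of the upper bounds. Let `t` be about half of the binary logarithm of `|k|`. By the law of the
meeting of two trajectories (library, `MP_7f88e4_nt.MeetingLaws`) all but `C |k| / √t` of the integers
`n` of `[-100 |k|, 100 |k|]` have the same `t`-th iterate as their residue `r` modulo `k`, and all but
`C |k| / √t` of the residues `r` have the same `t`-th iterate as the residue of `3 r`. Consider the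
paths `r, 3 r, ..., 3^(h-1) r` modulo `k` of length `h ≈ √(log |k|)` which start at the residues of
some integers `y`. If there is no exception on the path the `h` residues are owned by the class of `y`,
otherwise the first exception is. So there are at most `|k| / h + C |k| / √t` such `y`, if different `y`
in the same class are not joined by such a path. This holds for the first `J = c log |k|` terms of an
orbit, because `2^s T^s x ≡ 3^(o(s)) x` modulo `k` and `2^s ≠ 3^b`. Finally all but `|k|^(1-c')` of the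
orbits visit `[-100 |k|, 100 |k|]` at least `J / 10` times in the first `J` steps, by an exponential
supermartingale. So the number of classes is at most `C |k| / (J √(log |k|))`. Different periodic
integers have different `t`-th iterates and are treated by the same count.

For `k = 4^n - 3^n` the words of length `2 n` with `n` letters `1` are the parity words of as many
periodic integers. The products of `x / T x` and of `(x + k) / (T x + k)` along their cycles are `1`,
which gives an element `≤ k` of each cycle, and many elements `≤ 99 k`.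
-/

namespace Pool.Agent.Results.MP_7f88e4_nt.CyclesNearOrigin

/-- the `3x+k` map -/
def T (k x : ℤ) : ℤ := if x % 2 = 0 then x / 2 else (3 * x + k) / 2

/-- `Z` is a cycle of the `3x+k` map: `Z = {x, T x, ..., T^(p-1) x}` with `p ≥ 1` and `T^p x = x` -/
def IsCycle (k : ℤ) (Z : Finset ℤ) : Prop :=
  ∃ (x : ℤ) (p : ℕ), 1 ≤ p ∧ (T k)^[p] x = x ∧ Z = (Finset.range p).image fun i => (T k)^[i] x

/-- the cycles of the `3x+k` map which have an element in `[a, b]` -/
def cyclesMeeting (k : ℤ) (a b : ℝ) : Set (Finset ℤ) :=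
  {Z | IsCycle k Z ∧ ∃ x ∈ Z, a ≤ (x : ℝ) ∧ (x : ℝ) ≤ b}

/-- the integers in `[a, b]` which are periodic under the `3x+k` map -/
def periodicIn (k : ℤ) (a b : ℝ) : Set ℤ :=
  {x | a ≤ (x : ℝ) ∧ (x : ℝ) ≤ b ∧ ∃ p : ℕ, 1 ≤ p ∧ (T k)^[p] x = x}

/-- (1) There is `C` such that for all `k ≡ 1, 5` modulo `6` with `|k| ≥ 2`: every finite set of integers
of absolute value at most `|k|^(1 + 1/2000)` whose orbits under the `3x+k` map are pairwise disjoint
has at most `C |k| / (log |k|)^(3/2)` elements; in particular at most so many cycles have an element of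
absolute value at most `|k|^(1 + 1/2000)`.
(2) For every `B` there is `C` such that for all these `k` at most `C |k| / √(log |k|)` integers of
`[-B |k|, B |k|]` are periodic under the `3x+k` map.
(3) For `k = 4^n - 3^n`, `n ≥ 2`, at least `k / (20 (log k)^(3/2))` cycles have an element in `[1, k]`,
and at least `k / (20 √(log k))` integers of `[1, 99 k]` are periodic. -/
theorem result :
    (∃ C : ℝ, ∀ k : ℤ, k % 6 = 1 ∨ k % 6 = 5 → 2 ≤ |k| →
      (∀ R : Finset ℤ, (∀ x ∈ R, |(x : ℝ)| ≤ |(k : ℝ)| ^ (1 + 1 / 2000 : ℝ)) →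
        (∀ x ∈ R, ∀ y ∈ R, x ≠ y → ∀ i j : ℕ, (T k)^[i] x ≠ (T k)^[j] y) →
        (R.card : ℝ) ≤ C * |(k : ℝ)| / Real.log |(k : ℝ)| ^ (3 / 2 : ℝ)) ∧
      (cyclesMeeting k (-|(k : ℝ)| ^ (1 + 1 / 2000 : ℝ)) (|(k : ℝ)| ^ (1 + 1 / 2000 : ℝ))).Finite ∧
      ((cyclesMeeting k (-|(k : ℝ)| ^ (1 + 1 / 2000 : ℝ)) (|(k : ℝ)| ^ (1 + 1 / 2000 : ℝ))).ncard :
        ℝ) ≤ C * |(k : ℝ)| / Real.log |(k : ℝ)| ^ (3 / 2 : ℝ)) ∧
    (∀ B : ℝ, ∃ C : ℝ, ∀ k : ℤ, k % 6 = 1 ∨ k % 6 = 5 → 2 ≤ |k| →
      ((periodicIn k (-(B * |(k : ℝ)|)) (B * |(k : ℝ)|)).ncard : ℝ) ≤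
        C * |(k : ℝ)| / √(Real.log |(k : ℝ)|)) ∧
    (∀ n : ℕ, 2 ≤ n → ∀ k : ℤ, k = 4 ^ n - 3 ^ n →
      1 / 20 * (k : ℝ) / Real.log k ^ (3 / 2 : ℝ) ≤ ((cyclesMeeting k 1 k).ncard : ℝ) ∧
      1 / 20 * (k : ℝ) / √(Real.log k) ≤ ((periodicIn k 1 (99 * k)).ncard : ℝ)) := by
  have hT : T = Pool.Agent.H621.Osc.T := by funext k x; rfl
  have hC : ∀ k Z, IsCycle k Z ↔ Pool.Agent.H621.Osc.IsCycle k Z := by
    intro k Z
    unfold IsCycle Pool.Agent.H621.Osc.IsCycle
    rw [hT]
  refine ⟨?_, ?_, ?_⟩
  · obtain ⟨C, _, hCl⟩ := Pool.Agent.H621.Near.classes_upper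
    refine ⟨C, fun k hk hk2 => ?_⟩
    have h1 := hCl k (by omega) (by omega) hk2
    have h2 := Pool.Agent.H621.Near.cycles_count k _ _ h1
    have e : cyclesMeeting k (-|(k : ℝ)| ^ (1 + 1 / 2000 : ℝ)) (|(k : ℝ)| ^ (1 + 1 / 2000 : ℝ)) =
        {Z : Finset ℤ | Pool.Agent.H621.Osc.IsCycle k Z ∧
          ∃ x ∈ Z, |(x : ℝ)| ≤ |(k : ℝ)| ^ (1 + 1 / 2000 : ℝ)} := by
      ext Z
      unfold cyclesMeeting
      rw [Set.mem_setOf_eq, Set.mem_setOf_eq, hC]
      simp only [abs_le]
    refine ⟨?_, ?_, ?_⟩
    · rw [hT]; exact h1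
    · rw [e]; exact h2.1
    · rw [e]; exact h2.2
  · intro B
    obtain ⟨C, _, hCl⟩ := Pool.Agent.H621.Near.periodic_upper ⌈B⌉₊
    refine ⟨C, fun k hk hk2 => ?_⟩
    have hfin : (periodicIn k (-(B * |(k : ℝ)|)) (B * |(k : ℝ)|)).Finite := by
      apply (Set.finite_Icc (-⌊B * |(k : ℝ)|⌋) ⌊B * |(k : ℝ)|⌋).subset
      rintro x ⟨h1, h2, _⟩
      rw [Set.mem_Icc, ← abs_le]
      apply Int.le_floor.2
      push_cast
      exact abs_le.2 ⟨h1, h2⟩
    rw [Set.ncard_eq_toFinset_card _ hfin]
    apply hCl k (by omega) (by omega) hk2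
    · intro x hx
      rw [Set.Finite.mem_toFinset] at hx
      obtain ⟨h1, h2, _⟩ := hx
      exact (abs_le.2 ⟨h1, h2⟩).trans (mul_le_mul_of_nonneg_right (Nat.le_ceil B) (abs_nonneg _))
    · intro x hx
      rw [Set.Finite.mem_toFinset] at hx
      obtain ⟨_, _, h3⟩ := hx
      rw [hT] at h3
      exact h3
  · rintro n hn k rfl
    have h1 := Pool.Agent.H621.Near.lower_cyc n hn
    have h2 := Pool.Agent.H621.Near.lower_per n hn
    constructor
    · refine h1.trans (le_of_eq ?_)
      congr 2
      ext Z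
      unfold cyclesMeeting
      rw [Set.mem_setOf_eq, Set.mem_setOf_eq, hC]
      apply and_congr_right
      intro _
      apply exists_congr
      intro x
      apply and_congr_right
      intro _
      constructor
      · rintro ⟨a, b⟩
        exact ⟨by exact_mod_cast (show (1 : ℤ) ≤ x by omega), by exact_mod_cast b⟩
      · rintro ⟨a, b⟩
        have a' : (1 : ℤ) ≤ x := by exact_mod_cast a
        exact ⟨by omega, by exact_mod_cast b⟩
    · refine h2.trans (le_of_eq ?_)
      congr 2
      ext x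
      unfold periodicIn
      rw [Set.mem_setOf_eq, Set.mem_setOf_eq, hT]
      constructor
      · rintro ⟨a, b, c⟩
        refine ⟨by exact_mod_cast (show (1 : ℤ) ≤ x by omega), ?_, c⟩
        have : (x : ℝ) ≤ ((99 * (4 ^ n - 3 ^ n) : ℤ) : ℝ) := by exact_mod_cast b
        push_cast at this ⊢
        exact this
      · rintro ⟨a, b, c⟩
        have a' : (1 : ℤ) ≤ x := by exact_mod_cast a
        refine ⟨by omega, ?_, c⟩
        have : (x : ℝ) ≤ ((99 * (4 ^ n - 3 ^ n) : ℤ) : ℝ) := by
          push_cast at b ⊢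
          exact b
        exact_mod_cast this

end Pool.Agent.Results.MP_7f88e4_nt.CyclesNearOrigin
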