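import Mathlib
import Pool.Agent.H556.KC.Defs
import Pool.Agent.H556.KC.Scale

/-!
# Cycles of the `3x+k` maps whose parity word is a product of few powers

Let `x` be a periodic point of `T = T_{3,k}`, `T ^ n x = x`, and let `k' = |k| / gcd(x, k)`, the
denominator of the corresponding rational cycle of the `3x+1` map. Suppose that the parity word of
`x` (of length `n`) is a product of at most `m` powers of words of length at most `U` (e.g. cycles
with at most `m / 2` circuits, `U = 1`). We show, for all odd `k` at once, that if `k' ≥ B(m, U, ε)`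
and `n` and the number of odd terms have no common prime factor `≤ B`, then `n ≤ (1 + ε) log₂ k'`.

Proof. The equation of the cycle is `(2 ^ n - 3 ^ K) x = k V` where `V = ∑ 3 ^ (..) 2 ^ (..)` is
short for a product of few powers, up to a bounded factor. So `(2 ^ n - 3 ^ K) / k'` divides `V`, a
sum of few terms `c 2 ^ i 3 ^ j`. By the subspace theorem the gcd of `2 ^ n - 3 ^ K` and such sums is
at most `exp (δ n)`, unless the sum is divisible by `2 ^ n - 3 ^ K`, or the exponents have a small
common factor. If `2 ^ n - 3 ^ K` divides the sum then `k'` is bounded. Finally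
`|2 ^ n - 3 ^ K| ≥ 2 ^ ((1 - δ) n)`, by a lower bound for a linear form in `log 2`, `log 3`.
-/

set_option autoImplicit false

namespace Pool.Agent.Results.MP_7f88e4_nt.FewPowerCycles

open Pool.Agent.H556.KC

/-- For all odd `k`: if `T_{3,k} ^ n x = x`, the parity word of `x` is a product of at most `m` powers
of words of length at most `U`, `|k| / gcd (x, k) ≥ B`, and no prime `p ≤ B` divides both `n` and the
number of the odd terms, then `n ≤ (1 + ε) log₂ (|k| / gcd (x, k))`. -/
theorem result (m U : ℕ) (ε : ℝ) (hε : 0 < ε) :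
    ∃ B : ℕ, ∀ k : ℤ, Odd k → ∀ x : ℤ, ∀ n : ℕ, 1 ≤ n → (T k)^[n] x = x →
      (B : ℝ) ≤ |(k : ℝ)| / Int.gcd x k → FewPowers m U (word k x n) →
      (∀ p : ℕ, p.Prime → p ≤ B → ¬ (p ∣ n ∧ p ∣ (word k x n).count 1)) →
      (n : ℝ) ≤ (1 + ε) * Real.logb 2 (|(k : ℝ)| / Int.gcd x k) := by
  obtain ⟨B, hB⟩ := general m U hε
  refine ⟨B, fun k hk x n hn hx hkx hw hp => ?_⟩
  refine hB k (Int.odd_iff.1 hk) x ?_ n hn hx hw hp
  have hg0 : Int.gcd x k ≠ 0 := by
    rw [Ne, Int.gcd_eq_zero_iff]
    rintro ⟨-, rfl⟩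
    revert hk
    decide
  have hg : (0 : ℝ) < Int.gcd x k := by exact_mod_cast Nat.pos_of_ne_zero hg0
  rw [le_div_iff₀ hg] at hkx
  exact_mod_cast hkx

end Pool.Agent.Results.MP_7f88e4_nt.FewPowerCycles
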